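import Mathlib
import Pool.Agent.Lib.MP_d738f8_co.Core

/-! Matching Ramsey bound in `r`-uniform `s`-connectors: Q1 holds for all `q ≥ 1`, `r ≥ 2`. -/

namespace Pool.Agent.Results.MP_d738f8_co.Full

open Finset Filter Topology

/-- `H` is an `s`-connector (for uniformity `r`): any `r` pairwise disjoint vertex sets of size at
least `s` have a transversal edge. -/
def IsConnector {n : ℕ} (r s : ℕ) (H : Finset (Finset (Fin n))) : Prop :=
  ∀ A : Fin r → Finset (Fin n), (∀ i k, i ≠ k → Disjoint (A i) (A k)) → (∀ i, s ≤ (A i).card) →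
    ∃ v : Fin r → Fin n, (∀ i, v i ∈ A i) ∧ univ.image v ∈ H

/-- `H → t K_r^r`: every `q`-colouring of the edges of `H` has, for some colour `j`, `t j` pairwise
disjoint edges of colour `j`. -/
def Arrows {n q : ℕ} (H : Finset (Finset (Fin n))) (t : Fin q → ℕ) : Prop :=
  ∀ c : {e // e ∈ H} → Fin q, ∃ j : Fin q, ∃ M : Finset {e // e ∈ H}, M.card = t j ∧
    (∀ e ∈ M, ∀ f ∈ M, e ≠ f → Disjoint e.1 f.1) ∧ ∀ e ∈ M, c e = j

theorem result (q r : ℕ) (hq : 1 ≤ q) (hr : 2 ≤ r) :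
    ∃ φ : ℝ → ℝ, (∀ x ∈ Set.Ioc (0 : ℝ) 1, 0 < φ x) ∧ Tendsto φ (𝓝[>] 0) (𝓝 0) ∧
      ∀ (s n : ℕ) (t : Fin q → ℕ), 1 ≤ s → (∀ j, 1 ≤ t j) → s ≤ n →
        ((r : ℝ) - 1) * ((univ.sup t : ℕ) : ℝ) + ∑ j, ((t j : ℝ) - 1) + 1
            + (n : ℝ) * φ ((s : ℝ) / (n : ℝ)) ≤ (n : ℝ) →
        ∀ H : Finset (Finset (Fin n)), (∀ e ∈ H, e.card = r) → IsConnector r s H → Arrows H t := by
  set S : ℝ → Set ℝ := fun x => {δ | 0 < δ ∧ ∀ (s n : ℕ) (t : Fin q → ℕ), 1 ≤ s → (∀ j, 1 ≤ t j) →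
    s ≤ n → (s : ℝ) / n = x →
    ((r : ℝ) - 1) * ((univ.sup t : ℕ) : ℝ) + ∑ j, ((t j : ℝ) - 1) + 1 + (n : ℝ) * δ ≤ (n : ℝ) →
    ∀ H : Finset (Finset (Fin n)), (∀ e ∈ H, e.card = r) → IsConnector r s H → Arrows H t} with hS
  have hr' : (2:ℝ) ≤ r := by exact_mod_cast hr
  have hbdd : ∀ x, BddBelow (S x) := fun x => ⟨0, fun δ hδ => hδ.1.le⟩
  have hone : ∀ x, (1:ℝ) ∈ S x := by
    intro x
    refine ⟨one_pos, fun s n t _ ht _ _ h => ?_⟩
    exfalso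
    have h1 : 0 ≤ ∑ j, ((t j : ℝ) - 1) := Finset.sum_nonneg fun j _ => by
      have : (1:ℝ) ≤ t j := by exact_mod_cast ht j
      linarith
    have h2 : 0 ≤ ((r : ℝ) - 1) * ((univ.sup t : ℕ) : ℝ) :=
      mul_nonneg (by linarith) (Nat.cast_nonneg _)
    linarith
  have hinf0 : ∀ x, 0 ≤ sInf (S x) := fun x => Real.sInf_nonneg fun δ hδ => hδ.1.le
  have hsmall : ∀ δ, 0 < δ → ∃ ε, 0 < ε ∧ ∀ x, x ≤ ε → δ ∈ S x := by
    intro δ hδ
    obtain ⟨ε, hε, h⟩ := Pool.Agent.Lib.MP_d738f8_co.core q r hq hr δ hδ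
    refine ⟨ε, hε, fun x hx => ⟨hδ, fun s n t hs ht hsn hxs hn H hH hconn c => ?_⟩⟩
    have hn0 : (0:ℝ) < n := by exact_mod_cast lt_of_lt_of_le hs hsn
    obtain ⟨j, M, hM1, hM2, hM3, hM4⟩ := h (Fin n) s (univ.sup t) t
      (by rw [Fintype.card_fin, ← div_le_iff₀ hn0, hxs]; exact hx) ht
      (fun j => Finset.le_sup (mem_univ j)) (by rw [Fintype.card_fin]; exact hn) H hH hconn
      (fun e => if he : e ∈ H then c ⟨e, he⟩ else ⟨0, hq⟩)
    refine ⟨j, M.subtype (fun e => e ∈ H), ?_, fun e he f hf hef => ?_, fun e he => ?_⟩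
    · rw [Finset.card_subtype, Finset.filter_true_of_mem hM1, hM2]
    · exact hM3 (Finset.mem_subtype.mp he) (Finset.mem_subtype.mp hf)
        (fun h => hef (Subtype.ext h))
    · have := hM4 e.1 (Finset.mem_subtype.mp he)
      rwa [dif_pos e.2] at this
  refine ⟨fun x => sInf (S x) + x, fun x hx => ?_, ?_, fun s n t hs ht hsn hn => ?_⟩
  · linarith [hinf0 x, hx.1]
  · rw [Metric.tendsto_nhdsWithin_nhds]
    intro δ hδ
    obtain ⟨ε, hε, h⟩ := hsmall (δ / 2) (by linarith)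
    refine ⟨min ε (δ / 2), lt_min hε (by linarith), fun x hx hxd => ?_⟩
    have hx0 : 0 < x := hx
    rw [Real.dist_eq, sub_zero, abs_of_pos hx0, lt_min_iff] at hxd
    have h1 := csInf_le (hbdd x) (h x hxd.1.le)
    rw [Real.dist_eq, sub_zero, abs_of_pos (by linarith [hinf0 x])]
    linarith [hxd.2]
  · have hn0 : (0:ℝ) < n := by exact_mod_cast lt_of_lt_of_le hs hsn
    have hs0 : (0:ℝ) < s := by exact_mod_cast hs
    have hx0 : (0:ℝ) < s / n := div_pos hs0 hn0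
    obtain ⟨δ, hδ, hlt⟩ := exists_lt_of_csInf_lt ⟨1, hone ((s:ℝ) / n)⟩
      (show sInf (S ((s:ℝ) / n)) < sInf (S ((s:ℝ) / n)) + s / n by linarith)
    refine hδ.2 s n t hs ht hsn rfl (le_trans ?_ hn)
    have := mul_le_mul_of_nonneg_left hlt.le hn0.le
    linarith

end Pool.Agent.Results.MP_d738f8_co.Full
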