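import Mathlib
import Pool.Agent.Lib.MP_d738f8_co.ExactCore

/-! Exact Ramsey threshold for monochromatic matchings in `s`-connector graphs (`r = 2`). -/

namespace Pool.Agent.Results.MP_d738f8_co.GraphExact

open Finset

/-- `G` is an `s`-connector: any two disjoint vertex sets of size at least `s` are joined by an
edge. -/
def IsConnector {n : ℕ} (s : ℕ) (G : SimpleGraph (Fin n)) : Prop :=
  ∀ A B : Finset (Fin n), Disjoint A B → s ≤ A.card → s ≤ B.card → ∃ a ∈ A, ∃ b ∈ B, G.Adj a b

/-- `G → t K_2`: every `q`-colouring of the edges of `G` has, for some colour `j`, `t j` pairwise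
disjoint edges of colour `j`. -/
def Arrows {n q : ℕ} (G : SimpleGraph (Fin n)) (t : Fin q → ℕ) : Prop :=
  ∀ c : G.edgeSet → Fin q, ∃ j : Fin q, ∃ M : Finset G.edgeSet, M.card = t j ∧
    (∀ e ∈ M, ∀ f ∈ M, e ≠ f → ∀ v : Fin n, v ∈ e.1 → v ∉ f.1) ∧ ∀ e ∈ M, c e = j

theorem exists_parts {n q : ℕ} (b : Option (Fin q) → ℕ) (h : n ≤ ∑ o, b o) :
    ∃ p : Fin n → Option (Fin q), ∀ o, (univ.filter fun v => p v = o).card ≤ b o := by
  classical
  let S : Finset (Σ _ : Option (Fin q), ℕ) := univ.sigma fun o => range (b o)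
  have hS : Fintype.card (Fin n) ≤ Fintype.card S := by
    rw [Fintype.card_coe, Fintype.card_fin, card_sigma]
    simpa using h
  obtain ⟨e⟩ := Function.Embedding.nonempty_of_card_le hS
  refine ⟨fun v => (e v).1.1, fun o => ?_⟩
  rw [← card_range (b o)]
  refine card_le_card_of_injOn (fun v => (e v).1.2) (fun v hv => ?_) (fun v hv w hw hvw => ?_)
  · have h1 : (e v).1.1 = o := (mem_filter.1 (mem_coe.1 hv)).2
    have h2 := (mem_sigma.1 (e v).2).2
    rw [h1] at h2
    exact mem_coe.2 h2
  · have h1 := (mem_filter.1 (mem_coe.1 hv)).2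
    have h2 := (mem_filter.1 (mem_coe.1 hw)).2
    exact e.injective (Subtype.ext (Sigma.ext (h1.trans h2.symm) (heq_of_eq hvw)))

/-- Pairs of total weight at least two in some colour. -/
def wGraph {n q : ℕ} (w : Fin q → Fin n → ℕ) : SimpleGraph (Fin n) where
  Adj a b := a ≠ b ∧ ∃ j, 2 ≤ w j a + w j b
  symm := ⟨fun _ _ h => ⟨h.1.symm, h.2.imp fun _ hj => by omega⟩⟩
  loopless := ⟨fun _ h => h.1 rfl⟩

theorem not_arrows {n q : ℕ} (w : Fin q → Fin n → ℕ) (t : Fin q → ℕ)
    (h : ∀ j, ∑ v, w j v < 2 * t j) : ¬ Arrows (wGraph w) t := by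
  classical
  intro hA
  have hc : ∀ e : (wGraph w).edgeSet, ∃ j, 2 ≤ ∑ v ∈ univ.filter (fun v => v ∈ e.1), w j v := by
    rintro ⟨e, he⟩
    induction e using Sym2.ind with
    | _ a b =>
      obtain ⟨hab, j, hj⟩ := he
      refine ⟨j, ?_⟩
      have : (univ.filter fun v => v ∈ s(a, b)) = {a, b} := by
        ext v; simp
      rw [this, sum_pair hab]
      exact hj
  choose c hc using hc
  obtain ⟨j, M, h1, h2, h3⟩ := hA c
  have hd : (M : Set (wGraph w).edgeSet).PairwiseDisjoint
      fun e => univ.filter fun v : Fin n => v ∈ e.1 := fun e he f hf hef =>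
    disjoint_left.2 fun v hv hv' =>
      h2 e (mem_coe.1 he) f (mem_coe.1 hf) hef v (mem_filter.1 hv).2 (mem_filter.1 hv').2
  have h4 : M.card • 2 ≤ ∑ e ∈ M, ∑ v ∈ univ.filter (fun v => v ∈ e.1), w j v :=
    card_nsmul_le_sum _ _ _ fun e he => h3 e he ▸ hc e
  rw [← sum_biUnion hd, smul_eq_mul] at h4
  have h5 := h4.trans (sum_le_sum_of_subset (subset_univ _))
  have := h j
  omega

theorem sum_weight {n q : ℕ} (p : Fin n → Option (Fin q)) (j : Fin q) (a : ℕ) :
    ∑ v, (if p v = some j then a else 0) = a * (univ.filter fun v => p v = some j).card := by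
  rw [← sum_filter, sum_const, smul_eq_mul, mul_comm]

theorem exists_good {n q : ℕ} (p : Fin n → Option (Fin q)) (A : Finset (Fin n))
    (h : (univ.filter fun v => p v = none).card < A.card) : ∃ a ∈ A, ∃ j, p a = some j := by
  obtain ⟨a, ha, hn⟩ := exists_mem_notMem_of_card_lt_card h
  exact ⟨a, ha, Option.ne_none_iff_exists'.1 fun e => hn (mem_filter.2 ⟨mem_univ _, e⟩)⟩

theorem lower (q s n : ℕ) (t : Fin q → ℕ) (hq : 1 ≤ q) (hs : 1 ≤ s) (ht : ∀ j, 1 ≤ t j)
    (hn : n < ∑ j, (t j - 1) + max (univ.sup t) s + s) :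
    ∃ G : SimpleGraph (Fin n), IsConnector s G ∧ ¬ Arrows G t := by
  classical
  rcases le_total (univ.sup t) s with hle | hle
  · rw [max_eq_right hle] at hn
    obtain ⟨p, hp⟩ := exists_parts (n := n) (fun o : Option (Fin q) =>
      o.elim (2 * s - 1) fun j => t j - 1) (by
        rw [Fintype.sum_option]
        simp only [Option.elim]
        omega)
    refine ⟨wGraph fun j v => if p v = some j then 2 else 0, fun A B hd hA hB => ?_,
      not_arrows _ t fun j => ?_⟩
    · have h0 : (univ.filter fun v => p v = none).card ≤ 2 * s - 1 := hp none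
      obtain ⟨x, hx, j, hj⟩ := exists_good p (A ∪ B) (by rw [card_union_of_disjoint hd]; omega)
      obtain ⟨a, ha⟩ := card_pos.1 (lt_of_lt_of_le hs hA)
      obtain ⟨b, hb⟩ := card_pos.1 (lt_of_lt_of_le hs hB)
      rcases mem_union.1 hx with h | h
      · exact ⟨x, h, b, hb, fun e => disjoint_left.1 hd h (e ▸ hb), j, by simp [hj]⟩
      · exact ⟨a, ha, x, h, fun e => disjoint_left.1 hd ha (e ▸ h), j, by simp [hj]⟩
    · have h1 : (univ.filter fun v => p v = some j).card ≤ t j - 1 := hp (some j)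
      have := ht j
      rw [sum_weight]
      omega
  · rw [max_eq_left hle] at hn
    obtain ⟨j0, -, hj0⟩ := exists_mem_eq_sup (univ : Finset (Fin q)) ⟨⟨0, hq⟩, mem_univ _⟩ t
    obtain ⟨p, hp⟩ := exists_parts (n := n) (fun o : Option (Fin q) =>
      o.elim (s - 1) fun j => t j - 1 + if j = j0 then t j0 else 0) (by
        rw [Fintype.sum_option]
        simp only [Option.elim]
        rw [sum_add_distrib, sum_ite_eq' univ j0, if_pos (mem_univ _)]
        omega)
    refine ⟨wGraph fun j v => if p v = some j then (if j = j0 then 1 else 2) else 0,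
      fun A B hd hA hB => ?_, not_arrows _ t fun j => ?_⟩
    · have h0 : (univ.filter fun v => p v = none).card ≤ s - 1 := hp none
      obtain ⟨a, ha, i, hi⟩ := exists_good p A (by omega)
      obtain ⟨b, hb, j, hj⟩ := exists_good p B (by omega)
      refine ⟨a, ha, b, hb, fun e => disjoint_left.1 hd ha (e ▸ hb), ?_⟩
      by_cases h1 : i = j0
      · by_cases h2 : j = j0
        · exact ⟨j0, by simp [hi, hj, h1, h2]⟩
        · exact ⟨j, by simp [hj, h2]⟩
      · exact ⟨i, by simp [hi, h1]⟩
    · have h1 : (univ.filter fun v => p v = some j).card ≤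
          t j - 1 + if j = j0 then t j0 else 0 := hp (some j)
      have := ht j
      rw [sum_weight]
      by_cases h : j = j0
      · subst h
        simp only [if_true] at h1 ⊢
        omega
      · simp only [if_neg h] at h1 ⊢
        omega

theorem result (q s n : ℕ) (t : Fin q → ℕ) (hq : 1 ≤ q) (hs : 1 ≤ s) (ht : ∀ j, 1 ≤ t j) :
    (∀ G : SimpleGraph (Fin n), IsConnector s G → Arrows G t) ↔
      ∑ j, (t j - 1) + max (univ.sup t) s + s ≤ n := by
  classical
  constructor
  · intro h
    by_contra hn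
    obtain ⟨G, h1, h2⟩ := lower q s n t hq hs ht (not_le.1 hn)
    exact h2 (h G h1)
  · intro hn G hG c
    by_contra hno
    let Gc : Fin q → SimpleGraph (Fin n) := fun i =>
      { Adj := fun a b => ∃ h : s(a, b) ∈ G.edgeSet, c ⟨s(a, b), h⟩ = i
        symm := ⟨fun a b h => by
          obtain ⟨h1, h2⟩ := h
          exact ⟨G.adj_symm h1, by rw [← h2]; congr 2; exact Sym2.eq_swap⟩⟩
        loopless := ⟨fun a h => G.irrefl h.1⟩ }
    have hT : ∀ i, t i ≤ univ.sup t := fun i => le_sup (mem_univ i)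
    have := Pool.Agent.Lib.MP_d738f8_co.Exact.upper G Gc (fun a b h => ⟨c ⟨s(a, b), h⟩, h, rfl⟩)
      (fun i => t i - 1) s (univ.sup t) hs ((ht ⟨0, hq⟩).trans (hT _))
      (fun i => by have := ht i; have := hT i; omega) hG (fun i hi => by
        obtain ⟨M, h1, h2, h3⟩ := hi
        have h4 : ∀ e ∈ M, ∃ h : e ∈ G.edgeSet, c ⟨e, h⟩ = i := fun e he => by
          have := h2 e he
          induction e using Sym2.ind with
          | _ a b => exact this
        refine hno ⟨i, M.subtype fun e => e ∈ G.edgeSet, ?_, fun e he f hf hef => ?_,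
          fun e he => ?_⟩
        · rw [card_subtype, filter_true_of_mem fun e he => (h4 e he).1, h1]
          have := ht i
          omega
        · exact h3 _ (mem_subtype.1 he) _ (mem_subtype.1 hf) fun h => hef (Subtype.ext h)
        · exact (h4 e.1 (mem_subtype.1 he)).2)
    rw [Fintype.card_fin] at this
    omega

end Pool.Agent.Results.MP_d738f8_co.GraphExact
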